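import Pool.Agent.MP_ed9623_an.H77.SpecZ

/-! From abstract solutions to the concrete pair. -/

open MeasureTheory Filter Topology Set
open scoped ContDiff InnerProductSpace

namespace Pool.Agent.MP_ed9623_an.H77

open H64

namespace Cv

variable {Ω : Set P} {g : Fin 2 → P → ℝ} {S : St X2 (VV Ω)} {D : Pd X2 (VV Ω) (YY Ω)} {R : ℝ}
  {U : ℝ → VV Ω}

theorem inner_vE (u v : E6) : ⟪vE u, vE v⟫_ℝ = ip (vl u) (vl v) := by
  rw [PiLp.inner_apply]
  exact Finset.sum_congr rfl fun j _ => inner_L _ _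

theorem sole_perp {θ : P → ℝ} (h : Test Ω θ) : Sole Ω (perp (fun _ => 0) θ) := by
  refine ⟨fun j => h.perp Gam.zero j, fun x => ?_⟩
  have e0 : perp (fun _ => 0) θ 0 = fun p => (-1 : ℝ) * pd (ee 1) θ p := by
    funext p
    simp [perp, dd_zero]
  have e1 : perp (fun _ => 0) θ 1 = pd (ee 0) θ := by simp [perp, dd_zero]
  rw [Fin.sum_univ_two, e0, e1, pd_const_mul _ _ (sm_diff (h.pd _).1 x), pd_comm_sm h.1]
  ring

theorem ip_sub {u v ζ : Fin 2 → P → ℝ} (hu : ∀ j, M2 (u j)) (hv : ∀ j, M2 (v j))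
    (hζ : ∀ j, M2 (ζ j)) : ip (fun j p => u j p - v j p) ζ = ip u ζ - ip v ζ := by
  rw [ip, ip, ip, ← Finset.sum_sub_distrib]
  refine Finset.sum_congr rfl fun j _ => ?_
  rw [← integral_sub ((hu j).int_mul (hζ j)) ((hv j).int_mul (hζ j))]
  simp only [sub_mul]

theorem sm (h : Bd S R univ U) : ContDiff ℝ ∞ fun t => (U t).1 :=
  (Vs Ω).subtypeL.contDiff.comp (contDiffOn_univ.1 h.1.1)

theorem der (h : Bd S R univ U) (t : ℝ) : HasDerivAt (fun t => (U t).1) (deriv U t).1 t :=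
  (Vs Ω).subtypeL.hasFDerivAt.comp_hasDerivAt t (sm_hasDerivAt (contDiffOn_univ.1 h.1.1) t)

theorem sv (hg : ∀ j, M2 (g j)) (hM : Mod Ω g S D) (h : Bd S R univ U) :
    Sv Ω g (R + ∑ j, nm (g j)) fun t => (U t).1 := by
  refine ⟨sm h, fun t => ?_⟩
  have m := mem_VZ.1 (Vs_le Ω (U t).2)
  obtain ⟨b1, b2⟩ := h.2 t trivial
  have n0 : ∀ j, 0 ≤ nm (g j) := fun j => Real.sqrt_nonneg _
  have n1 : 0 ≤ ∑ j, nm (g j) := Finset.sum_nonneg fun j _ => n0 j
  have b3 : ‖(U t).1‖ ≤ R + ∑ j, nm (g j) := le_add_of_le_of_nonneg b1 n1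
  rw [(der h t).deriv]
  refine ⟨m.1, fun j => ⟨(nm_co_le _ _).trans b3, fun i => (nm_co_le _ _).trans b3⟩,
    fun j => ⟨(hg j).sub (m2_vl _ j), (nm_sub_le (hg j) (m2_vl _ j)).trans ?_⟩,
    fun j => (m.2 (j, none)).mono fun p hp => hp.2, fun θ hθ => ?_⟩
  · have c1 : nm (vl (deriv U t).1 j) ≤ R := by
      refine le_trans ?_ b2
      rw [hM.ι, vl, nm_coe, ← vE_apply]
      exact PiLp.norm_apply_le _ j
    have c2 := Finset.single_le_sum (fun j _ => n0 j) (Finset.mem_univ j)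
    linarith
  · obtain ⟨ζ, hζ⟩ := exists_jetV (sole_perp hθ)
    have e := congrArg (fun v => ⟪v, ζ⟫_ℝ) (h.1.2 t trivial)
    simp only [St.G, inner_sub_left] at e
    rw [adj_inner, hM.ι, hM.ι, inner_vE, hM.γ, hM.A, hM.B, hζ.ip, hζ.ip, hζ.dj, hζ.tj] at e
    rw [E2, ip_sub hg (m2_vl _) fun j => (hθ.perp Gam.zero j).m2]
    linarith

end Cv

open Cv in
theorem rowCv : OfCv := by
  intro Ω g S D R U W hg hM hU hW ho
  have e1 : (fun t => (1 / 2 : ℝ) • ((U t).1 + (W t).1) + (1 / 2 : ℝ) • ((U t).1 - (W t).1)) =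
      fun t => (U t).1 := funext fun t => by module
  have e2 : (fun t => (1 / 2 : ℝ) • ((U t).1 + (W t).1) - (1 / 2 : ℝ) • ((U t).1 - (W t).1)) =
      fun t => (W t).1 := funext fun t => by module
  refine ⟨R + ∑ j, nm (g j), ((sm hU).add (sm hW)).const_smul _,
    ((sm hU).sub (sm hW)).const_smul _,
    fun t => Vs_le Ω ((Vs Ω).smul_mem _ ((Vs Ω).add_mem (U t).2 (W t).2)),
    fun t => Vs_le Ω ((Vs Ω).smul_mem _ ((Vs Ω).sub_mem (U t).2 (W t).2)), hg, fun t => ?_,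
    e1 ▸ sv hg hM hU, e2 ▸ sv hg hM hW, fun t ζ hζ => ?_⟩
  · have b1 : ‖(U t).1‖ ≤ R := (hU.2 t trivial).1
    have b2 : ‖(W t).1‖ ≤ R := (hW.2 t trivial).1
    have n1 : 0 ≤ ∑ j, nm (g j) := Finset.sum_nonneg fun j _ => Real.sqrt_nonneg _
    have b3 := norm_sub_le (U t).1 (W t).1
    rw [norm_smul, Real.norm_of_nonneg (by norm_num)]
    linarith
  · obtain ⟨η, hη⟩ := exists_jetY hζ
    set a : VV Ω := (1 / 2 : ℝ) • (U t + W t) with ha
    set w : VV Ω := (1 / 2 : ℝ) • (U t - W t) with hw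
    set z : VV Ω := (1 / 2 : ℝ) • (deriv U t - deriv W t) with hz
    have d : deriv (fun t => (1 / 2 : ℝ) • ((U t).1 - (W t).1)) t = z.1 :=
      (((der hU t).fun_sub (der hW t)).fun_const_smul (1 / 2 : ℝ)).deriv
    have k : D.J (S.ι z) + D.A w + D.B a w + D.B w a = 0 := by
      have := ho t
      simp only [obs] at this
      simp only [ha, hw, hz, map_smul, map_add, map_sub, smul_apply,
        add_apply, sub_apply]
      linear_combination (norm := module) (-1 / 2 : ℝ) • this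
    have e := congrArg (fun v => ⟪v, η⟫_ℝ) k
    simp only [inner_add_left, inner_zero_left] at e
    rw [hM.J, hM.ι, hM.AY, hM.BY, hM.BY, hη.ip, hη.dj, hη.tj, hη.tj] at e
    rw [d]
    change ip (vl z.1) ζ + di _ (gj w.1) ζ - tl _ (vl a.1) (vl w.1) ζ - tl _ (vl w.1) (vl a.1) ζ = 0
    have q : ip (fun j => (vE z.1) j) ζ = ip (vl z.1) ζ := rfl
    linarith

end Pool.Agent.MP_ed9623_an.H77
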